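import Pool.Agent.H2.EDV.Targets
import Pool.Agent.H18.BKH.Rec
import Pool.Agent.H77.BKH.FIX
import Pool.Agent.H8.TX.Basic
import Pool.Agent.H8.ZA.KEY

/-!
# VHT: the heights of the roots of the equation at a point
-/

set_option autoImplicit false

open MvPolynomial
open Pool.Agent.H12.ZD (pmap)
open Pool.Agent.H18.HIT Pool.Agent.H18.HX Pool.Agent.H18.VZ
open Pool.Agent.H8.ZA (HFam Const NA)
open Pool.Agent.H8.TD (lc dg Cop)
open Pool.Agent.H8.TX (hn mxn szn one_le_szn szn_pos le_szn szn_le log_szn_finite szn_one)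
open Pool.Agent.H2.ED
open Pool.Agent.H18.TE (lg Gc)
open Pool.Agent.H18.TXB (avn)
open Pool.Agent.H18.EDB (dgm T_CHN T_VSB)
open Pool.Agent.H8.EDA (T_VSF)
open Pool.Agent.H2.EDV

namespace Pool.Agent.H4.EDV

theorem mxn_le {m : ℕ} (v : AbsoluteValue Qb ℝ) (x : Fin m → Qb) {A : ℝ} (hA : 0 ≤ A)
    (h : ∀ j, v (x j) ≤ A) : mxn v x ≤ A :=
  (Finset.fold_max_le _).mpr ⟨hA, fun j _ => h j⟩

variable {K : IntermediateField ℚ Qb}

/-- bound for the values of a sum of monomials -/
theorem evs {N : ℕ} (F : HFam K) (q : Po N Qb) (Y : ℕ) (hq : q.totalDegree ≤ Y)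
    (s : Finset (Fin N →₀ ℕ)) (hs : s ⊆ q.support) : ∃ c, Const F c ∧
    ∀ i (x : Fin N → Qb), F.abv i (∑ m ∈ s, coeff m q * ∏ j, x j ^ m j) ≤
      c i * szn (F.abv i) x ^ Y := by
  classical
  induction s using Finset.induction_on with
  | empty =>
    refine ⟨fun _ => 1, Const.one F, fun i x => ?_⟩
    rw [Finset.sum_empty, map_zero, one_mul]
    exact pow_nonneg (szn_pos _ _).le _
  | insert m s hm ih =>
    obtain ⟨c, hc, hcx⟩ := ih fun a ha => hs (Finset.mem_insert_of_mem ha)
    have hm0 : coeff m q ≠ 0 := mem_support_iff.1 (hs (Finset.mem_insert_self _ _))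
    have hdeg : ∑ j, m j ≤ Y := by
      have h1 := le_totalDegree (hs (Finset.mem_insert_self m s))
      rw [Finsupp.sum_fintype _ _ fun _ => rfl] at h1
      exact h1.trans hq
    -- the new monomial
    have hc1 : Const F fun i => max 1 (F.abv i (coeff m q)) := by
      refine ⟨fun i => le_max_left _ _, (F.finite _ hm0).subset fun i hi h1 => hi ?_⟩
      change max 1 (F.abv i (coeff m q)) = 1
      rw [h1, max_self]
    have hb1 : ∀ i (x : Fin N → Qb), F.abv i (coeff m q * ∏ j, x j ^ m j) ≤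
        max 1 (F.abv i (coeff m q)) * szn (F.abv i) x ^ Y := by
      intro i x
      rw [map_mul, map_prod]
      refine mul_le_mul (le_max_right _ _) ?_ (Finset.prod_nonneg fun j _ =>
        (F.abv i).nonneg _) (le_trans zero_le_one (le_max_left _ _))
      calc ∏ j, F.abv i (x j ^ m j) ≤ ∏ j, szn (F.abv i) x ^ m j := by
            apply Finset.prod_le_prod (fun j _ => (F.abv i).nonneg _)
            intro j _
            rw [map_pow]
            exact pow_le_pow_left₀ ((F.abv i).nonneg _) (le_szn _ _ j) _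
        _ = szn (F.abv i) x ^ ∑ j, m j := Finset.prod_pow_eq_pow_sum _ _ _
        _ ≤ _ := pow_le_pow_right₀ (one_le_szn _ _) hdeg
    refine ⟨fun i => if i ∈ F.arch then max 1 (F.abv i (coeff m q)) + c i
      else max (max 1 (F.abv i (coeff m q))) (c i), ⟨fun i => ?_, ?_⟩, fun i x => ?_⟩
    · split_ifs
      · have h1 := hc1.one_le i
        have h2 := hc.one_le i
        linarith
      · exact le_trans (hc1.one_le i) (le_max_left _ _)
    · refine ((F.arch.finite_toSet).union (hc1.finite.union hc.finite)).subset fun i hi => ?_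
      by_contra hcon
      rw [Set.mem_union, Set.mem_union] at hcon
      push Not at hcon
      obtain ⟨h1, h2, h3⟩ := hcon
      apply hi
      have h1' : i ∉ F.arch := fun h => h1 (by exact_mod_cast h)
      have h2' : max 1 (F.abv i (coeff m q)) = 1 := by
        by_contra h
        exact h2 h
      have h3' : c i = 1 := by
        by_contra h
        exact h3 h
      simp only [if_neg h1', h2', h3', max_self]
    · rw [Finset.sum_insert hm]
      have hp : 0 ≤ szn (F.abv i) x ^ Y := pow_nonneg (szn_pos _ _).le _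
      by_cases hi : i ∈ F.arch
      · simp only [if_pos hi]
        rw [add_mul]
        exact ((F.abv i).add_le _ _).trans (add_le_add (hb1 i x) (hcx i x))
      · simp only [if_neg hi]
        refine (F.na i hi _ _).trans (max_le ?_ ?_)
        · exact (hb1 i x).trans (mul_le_mul_of_nonneg_right (le_max_left _ _) hp)
        · exact (hcx i x).trans (mul_le_mul_of_nonneg_right (le_max_right _ _) hp)

/-- bound for the values of a polynomial -/
theorem evb {N : ℕ} (F : HFam K) (q : Po N Qb) (Y : ℕ) (hq : q.totalDegree ≤ Y) :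
    ∃ c, Const F c ∧ ∀ i (x : Fin N → Qb), F.abv i (eval x q) ≤
      c i * szn (F.abv i) x ^ Y := by
  obtain ⟨c, hc, hcx⟩ := evs F q Y hq q.support (Finset.Subset.refl _)
  refine ⟨c, hc, fun i x => ?_⟩
  rw [eval_eq']
  exact hcx i x

theorem szn_cons {N : ℕ} (v : AbsoluteValue Qb ℝ) (w : Fin N → Qb) :
    szn v (Fin.cons 1 w : Fin (N + 1) → Qb) ≤ szn v w := by
  apply szn_le (one_le_szn _ _)
  intro i
  refine Fin.cases ?_ (fun j => ?_) i
  · rw [Fin.cons_zero, map_one]
    exact one_le_szn _ _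
  · rw [Fin.cons_succ]
    exact le_szn _ _ j

/-- the constants for a family of polynomials -/
theorem evf {N E : ℕ} (F : HFam K) (Cf : Fin (E + 1) → Po (N + 1) Qb) (Y : ℕ)
    (hC : ∀ j, (Cf j).IsHomogeneous Y) : ∃ A, Const F A ∧ ∀ i (w : Fin N → Qb),
    mxn (F.abv i) (fun j => eval (Fin.cons 1 w : Fin (N + 1) → Qb) (Cf j)) ≤
      A i * szn (F.abv i) w ^ Y := by
  choose c hc hcx using fun j => evb F (Cf j) Y (hC j).totalDegree_le
  have hcc : Const F fun i => ∏ j ∈ (Finset.univ : Finset (Fin (E + 1))), c j i :=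
    Const.prod _ _ fun j _ => hc j
  refine ⟨_, hcc, fun i w => ?_⟩
  have hp : 0 ≤ szn (F.abv i) w ^ Y := pow_nonneg (szn_pos _ _).le _
  apply mxn_le _ _ (mul_nonneg (hcc.pos i).le hp)
  intro j
  refine (hcx j i _).trans (mul_le_mul ?_ ?_ (pow_nonneg (szn_pos _ _).le _) (hcc.pos i).le)
  · exact Pool.Agent.H8.ZA.le_prod_const _ _ (fun j _ => hc j) (Finset.mem_univ j) i
  · exact pow_le_pow_left₀ (szn_pos _ _).le (szn_cons _ _) _

theorem pf_VHT (hVMA : T_VMA) : T_VHT := by
  classical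
  intro ρ E Y Cf hC K' F' hcf
  obtain ⟨A, hA, hAw⟩ := evf F' Cf Y hC
  have hB : Const F' fun i => if i ∈ F'.arch then ((E : ℝ) + 1) ^ E else 1 := by
    refine ⟨fun i => ?_, F'.arch.finite_toSet.subset fun i hi => ?_⟩
    · split_ifs
      · apply one_le_pow₀
        have : (0 : ℝ) ≤ E := Nat.cast_nonneg E
        linarith
      · exact le_rfl
    · by_contra hcon
      have h1 : i ∉ F'.arch := fun h => hcon (by exact_mod_cast h)
      exact hi (if_neg h1)
  have hBA := hB.mul hA
  obtain ⟨C, hCd⟩ : ∃ C : F'.ι → ℝ, C = fun i =>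
    (if i ∈ F'.arch then ((E : ℝ) + 1) ^ E else 1) * A i := ⟨_, rfl⟩
  rw [← hCd] at hBA
  refine ⟨∑ᶠ i, Real.log (C i), fun Γ L hΓ w hw h0 Z hZ => ?_⟩
  -- one automorphism
  have hone : ∀ σ : Qb ≃ₐ[K'] Qb,
      lg F' (σ (eval (Fin.cons 1 w : Fin (ρ + 1) → Qb) (Cf 0))) + ∑ z ∈ Z, hn F' ![σ z] ≤
        Y * hn F' (fun i => σ (w i)) + ∑ᶠ i, Real.log (C i) := by
    intro σ
    have hcons : (fun i => σ ((Fin.cons 1 w : Fin (ρ + 1) → Qb) i)) =
        (Fin.cons 1 (fun i => σ (w i)) : Fin (ρ + 1) → Qb) := by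
      funext i
      refine Fin.cases ?_ (fun j => ?_) i
      · rw [Fin.cons_zero, Fin.cons_zero, map_one]
      · rw [Fin.cons_succ, Fin.cons_succ]
    have hev : ∀ j, σ (eval (Fin.cons 1 w : Fin (ρ + 1) → Qb) (Cf j)) =
        eval (Fin.cons 1 (fun i => σ (w i)) : Fin (ρ + 1) → Qb) (Cf j) := by
      intro j
      rw [Pool.Agent.H18.BKH.map_eval σ (Cf j) (hcf j), hcons]
    obtain ⟨c, hc⟩ : ∃ c : Fin (E + 1) → Qb, c = fun j =>
      eval (Fin.cons 1 (fun i => σ (w i)) : Fin (ρ + 1) → Qb) (Cf j) := ⟨_, rfl⟩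
    have hc0 : c 0 ≠ 0 := by
      rw [hc]
      simp only
      rw [← hev 0]
      exact (map_ne_zero σ).2 h0
    have hroot : ∀ z ∈ Z.image σ, ∑ j : Fin (E + 1), c j * z ^ (E - (j : ℕ)) = 0 := by
      intro z hz
      obtain ⟨z', hz', rfl⟩ := Finset.mem_image.1 hz
      have h1 := congrArg σ (hZ z' hz').2
      rw [map_zero, map_sum] at h1
      rw [← h1]
      apply Finset.sum_congr rfl
      intro j _
      rw [map_mul, map_pow, hev, hc]
    rw [hev 0]
    have hlg := Pool.Agent.H18.BKH.log_finite F' hc0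
    have hc00 : c 0 = eval (Fin.cons 1 (fun i => σ (w i)) : Fin (ρ + 1) → Qb) (Cf 0) := by
      rw [hc]
    rw [← hc00]
    have e0 : ∑ z ∈ Z, hn F' ![σ z] = ∑ᶠ i, ∑ z ∈ Z, Real.log (szn (F'.abv i) ![σ z]) := by
      rw [finsum_sum_comm]
      · rfl
      · intro z _
        exact log_szn_finite F' _
    have s0 : (Function.support fun i => ∑ z ∈ Z, Real.log (szn (F'.abv i) ![σ z])).Finite := by
      refine (Set.Finite.biUnion Z.finite_toSet fun z _ =>
        log_szn_finite F' ![σ z]).subset fun i hi => ?_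
      by_contra hcon
      apply hi
      apply Finset.sum_eq_zero
      intro z hz
      by_contra h1
      apply hcon
      rw [Set.mem_iUnion₂]
      exact ⟨z, by exact_mod_cast hz, h1⟩
    have e1 : (Y : ℝ) * hn F' (fun i => σ (w i)) =
        ∑ᶠ i, (Y : ℝ) * Real.log (szn (F'.abv i) (fun i => σ (w i))) := mul_finsum _ _
    have s1 : (Function.support fun i =>
        (Y : ℝ) * Real.log (szn (F'.abv i) (fun i => σ (w i)))).Finite :=
      (log_szn_finite F' (fun i => σ (w i))).subset fun i hi h1 => hi (by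
        simp only [h1, mul_zero])
    rw [e0, e1]
    unfold lg
    rw [← finsum_add_distrib hlg s0, ← finsum_add_distrib s1 hBA.log_finite]
    apply finsum_le_finsum'
    · exact (hlg.union s0).subset (Function.support_add _ _)
    · exact (s1.union hBA.log_finite).subset (Function.support_add _ _)
    intro i
    change Real.log (F'.abv i (c 0)) + ∑ z ∈ Z, Real.log (szn (F'.abv i) ![σ z]) ≤
      (Y : ℝ) * Real.log (szn (F'.abv i) (fun i => σ (w i))) + Real.log (C i)
    have hv0 : 0 < F'.abv i (c 0) := (F'.abv i).pos hc0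
    have hsz := szn_pos (F'.abv i) (fun i => σ (w i))
    rw [← Real.log_prod fun z _ => (szn_pos _ _).ne', ← Real.log_mul hv0.ne'
      (Finset.prod_ne_zero_iff.2 fun z _ => (szn_pos _ _).ne'), ← Real.log_pow,
      ← Real.log_mul (pow_pos hsz _).ne' (hBA.pos i).ne']
    apply Real.log_le_log (mul_pos hv0 (Finset.prod_pos fun z _ => szn_pos _ _))
    have h1 : ∏ z ∈ Z, szn (F'.abv i) ![σ z] = ∏ z ∈ Z.image σ, max 1 (F'.abv i z) := by
      rw [Finset.prod_image fun a _ b _ h => σ.injective h]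
      exact Finset.prod_congr rfl fun z _ => szn_one _ _
    rw [h1]
    obtain ⟨h2, h3⟩ := hVMA (F'.abv i) E c (Z.image σ) hc0 hroot
    have h4 : mxn (F'.abv i) c ≤ A i * szn (F'.abv i) (fun i => σ (w i)) ^ Y := by
      rw [hc]
      exact hAw i fun i => σ (w i)
    by_cases hi : i ∈ F'.arch
    · have h5 : C i = ((E : ℝ) + 1) ^ E * A i := by rw [hCd]; simp only [if_pos hi]
      rw [h5]
      refine h2.trans ?_
      calc ((E : ℝ) + 1) ^ E * mxn (F'.abv i) c ≤
            ((E : ℝ) + 1) ^ E * (A i * szn (F'.abv i) (fun i => σ (w i)) ^ Y) :=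
            mul_le_mul_of_nonneg_left h4 (by positivity)
        _ = _ := by ring
    · have h5 : C i = A i := by rw [hCd]; simp only [if_neg hi, one_mul]
      rw [h5, mul_comm _ (A i)]
      exact (h3 (F'.na i hi)).trans h4
  -- the sum
  have hL : eval (Fin.cons 1 w : Fin (ρ + 1) → Qb) (Cf 0) ∈ L := by
    apply Pool.Agent.H18.BKH.eval_memL (Cf 0) (hcf 0)
    intro i
    refine Fin.cases ?_ (fun j => ?_) i
    · rw [Fin.cons_zero]
      exact one_mem L
    · rw [Fin.cons_succ]
      exact hw j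
  have hlg := Pool.Agent.H18.BKH.Gc.lg_sum hΓ Pool.Agent.H77.BKH.pf_FIX F' hL h0
  have hsum := Finset.sum_le_sum fun (σ : Qb ≃ₐ[K'] Qb) (_ : σ ∈ Γ) => hone σ
  rw [Finset.sum_add_distrib, hlg, zero_add, Finset.sum_add_distrib, ← Finset.mul_sum,
    Finset.sum_const, nsmul_eq_mul, Finset.sum_comm] at hsum
  refine le_trans (le_of_eq ?_) hsum
  apply Finset.sum_congr rfl
  intro z _
  unfold avn
  apply Finset.sum_congr rfl
  intro σ _
  congr 1
  funext i
  fin_cases i
  rfl

end Pool.Agent.H4.EDV
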